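import Pool.Agent.THS.StmtsB

/-!
Row BDG of squad THS.
-/

set_option autoImplicit false

namespace Pool.Agent.THS.H90

open scoped BigOperators

theorem nv_le {K ι : Type} [Field K] [Finite ι] (v : AbsoluteValue K ℝ) (x : ι → K) (i : ι) :
    v (x i) ≤ nv v x :=
  le_ciSup (Set.finite_range fun i => v (x i)).bddAbove i

theorem nv_pos {K ι : Type} [Field K] [Finite ι] (v : AbsoluteValue K ℝ) (x : ι → K)
    (hx : x ≠ 0) : 0 < nv v x := by
  obtain ⟨i, hi⟩ := Function.ne_iff.mp hx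
  exact lt_of_lt_of_le (v.pos hi) (nv_le v x i)

theorem bdg (hP : PrbStatement) : BdgStatement := by
  intro K _ v g N α β T x u a C hC hT hu hdup k
  have hb : 0 < v β := v.pos hT.hβ
  have ha : 0 < v α := v.pos hT.hα
  have hF : ∀ k, 0 < nv v (T k) := fun k => nv_pos v (T k) (hT.T0 k)
  have hper : ∀ k : ℤ, nv v (T (k + N)) = v α * v β ^ k * nv v (T k) := by
    intro k
    show ⨆ c, v (T (k + N) c) = v α * v β ^ k * ⨆ c, v (T k c)
    rw [Real.mul_iSup_of_nonneg (by positivity)]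
    congr 1
    funext c
    rw [hT.per, map_mul, map_mul, map_zpow₀]
  have hab : v α ^ 2 = v β ^ N := by rw [← map_pow, hT.ab, map_pow]
  have hPk := hP N (fun k => nv v (T k)) (v α) (v β) C hT.hN ha hb hC hF hab hper hdup
  have hN : 0 < N := hT.hN
  have hF0 := hF 0
  refine le_of_pow_le_pow_left₀ (n := 2 * N) (by omega) (by positivity) ?_
  have h1 : v (ff β T u a k) = v β ^ (-(k ^ 2)) * ∏ l, v (T (u l * k) (a l)) := by
    rw [ff, map_mul, map_zpow₀, map_prod]
  have h2 : ∏ l, v (T (u l * k) (a l)) ^ (6 * N)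
      ≤ ∏ l, C ^ (2 * N) * nv v (T 0) ^ (6 * N) * v β ^ (3 * (u l * k) ^ 2) := by
    apply Finset.prod_le_prod
    · intro l _
      exact pow_nonneg (v.nonneg _) _
    · intro l _
      exact (pow_le_pow_left₀ (v.nonneg _) (nv_le v _ _) _).trans (hPk (u l * k))
  have h3 : ∏ l : Fin 5, C ^ (2 * N) * nv v (T 0) ^ (6 * N) * v β ^ (3 * ((u l : ℤ) * k) ^ 2)
      = (C ^ (2 * N) * nv v (T 0) ^ (6 * N)) ^ 5 * v β ^ (6 * (N : ℤ) * k ^ 2) := by
    rw [Finset.prod_mul_distrib, Finset.prod_const, Finset.card_univ, Fintype.card_fin]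
    congr 1
    have h4 : ∀ s : Finset (Fin 5), ∏ l ∈ s, v β ^ (3 * ((u l : ℤ) * k) ^ 2)
        = v β ^ (∑ l ∈ s, 3 * ((u l : ℤ) * k) ^ 2) := by
      intro s
      induction s using Finset.induction_on with
      | empty => simp
      | insert i s hi ih => rw [Finset.prod_insert hi, Finset.sum_insert hi, ih, zpow_add₀ hb.ne']
    rw [h4]
    congr 1
    have h5 : ∑ l, (u l : ℤ) ^ 2 = 2 * N := by exact_mod_cast hu
    calc ∑ l, 3 * ((u l : ℤ) * k) ^ 2 = 3 * k ^ 2 * ∑ l, (u l : ℤ) ^ 2 := by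
          rw [Finset.mul_sum]
          apply Finset.sum_congr rfl
          intro l _
          ring
      _ = 6 * (N : ℤ) * k ^ 2 := by rw [h5]; ring
  calc (v (ff β T u a k) ^ 3) ^ (2 * N)
      = (v β ^ (-(k ^ 2))) ^ (6 * N) * ∏ l, v (T (u l * k) (a l)) ^ (6 * N) := by
        rw [← pow_mul, h1, mul_pow, Finset.prod_pow]
        have e : 3 * (2 * N) = 6 * N := by ring
        rw [e]
    _ ≤ (v β ^ (-(k ^ 2))) ^ (6 * N) *
        ((C ^ (2 * N) * nv v (T 0) ^ (6 * N)) ^ 5 * v β ^ (6 * (N : ℤ) * k ^ 2)) := by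
        rw [← h3]
        exact mul_le_mul_of_nonneg_left h2 (by positivity)
    _ = (C ^ 5 * nv v (T 0) ^ 15) ^ (2 * N) := by
        have e1 : (v β ^ (-(k ^ 2))) ^ (6 * N) * v β ^ (6 * (N : ℤ) * k ^ 2) = 1 := by
          rw [← zpow_natCast, ← zpow_mul, ← zpow_add₀ hb.ne']
          have e : -(k ^ 2) * ((6 * N : ℕ) : ℤ) + 6 * (N : ℤ) * k ^ 2 = 0 := by
            push_cast
            ring
          rw [e, zpow_zero]
        have e2 : (C ^ (2 * N) * nv v (T 0) ^ (6 * N)) ^ 5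
            = (C ^ 5 * nv v (T 0) ^ 15) ^ (2 * N) := by
          rw [mul_pow, mul_pow, ← pow_mul, ← pow_mul, ← pow_mul, ← pow_mul]
          congr 2 <;> ring
        rw [e2, mul_left_comm, e1, mul_one]

end Pool.Agent.THS.H90
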