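import Pool.Agent.THS.StmtsT

/-!
Row BIJ of squad THS.
-/

set_option autoImplicit false

namespace Pool.Agent.THS.H90

theorem bij_val (k : ℤ) : (((k : ZMod 2)).val : ℤ) = k % 2 := by
  have := ZMod.val_intCast (n := 2) k
  simpa using this

theorem bij : BijStatement := by
  intro g
  rw [Function.bijective_iff_has_inverse]
  refine ⟨fun p => (fun i => ((p.1 i - p.2 i : ℤ) : ZMod 2),
    fun i => p.2 i + (p.1 i - p.2 i) / 2, fun i => (p.1 i - p.2 i) / 2), ?_, ?_⟩
  · rintro ⟨c, n, l⟩
    have hc : ∀ i, ((c i).val : ℤ) = 0 ∨ ((c i).val : ℤ) = 1 := by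
      intro i
      have := ZMod.val_lt (c i)
      omega
    have h1 : (fun i => ((n i + l i + ((c i).val : ℤ) - (n i - l i) : ℤ) : ZMod 2)) = c := by
      funext i
      have e : n i + l i + ((c i).val : ℤ) - (n i - l i) = ((c i).val : ℤ) + 2 * l i := by ring
      rw [e]
      push_cast
      rw [ZMod.natCast_val, ZMod.cast_id', id]
      have h2 : (2 : ZMod 2) = 0 := by decide
      rw [h2, zero_mul, add_zero]
    have h2 : (fun i => (n i + l i + ((c i).val : ℤ) - (n i - l i)) / 2) = l := by
      funext i
      rcases hc i with h | h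
      · rw [h]; omega
      · rw [h]; omega
    have h3 : (fun i => n i - l i + (n i + l i + ((c i).val : ℤ) - (n i - l i)) / 2) = n := by
      funext i
      rcases hc i with h | h
      · rw [h]; omega
      · rw [h]; omega
    exact Prod.ext h1 (Prod.ext h3 h2)
  · rintro ⟨m, m'⟩
    apply Prod.ext
    · funext i
      show m' i + (m i - m' i) / 2 + (m i - m' i) / 2 + ((((m i - m' i : ℤ) : ZMod 2)).val : ℤ) = m i
      rw [bij_val]
      omega
    · funext i
      show m' i + (m i - m' i) / 2 - (m i - m' i) / 2 = m' i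
      omega

end Pool.Agent.THS.H90
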